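import Pool.Agent.Lib.MP_0219da_al.Final
import Pool.Agent.Lib.MP_0219da_al.Model

/-!
# MP_0219da_al: a trace-positive noncommutative polynomial need not be a sum of squares plus
commutators in the free skew field

For every `g ≥ 2` there is a trace-positive `p ∈ ℝ⟨x₁,…,x_g⟩` that is not of the form
`∑ r_i^* r_i + ∑ [s_j, t_j]` with noncommutative rational functions `r_i, s_j, t_j`.

Idea.  For a real matrix `T` the matrices `A = TᵀT` and `B = TTᵀ` have the same spectrum.  There
is a polynomial `p_{λ,l}` in `T, Tᵀ` and a symmetric `w`, with coefficients in `ℚ(λ, l)`, whose
trace is a sum over a doubly stochastic coupling of the spectrum with itself, and this sum is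
nonnegative for all `T, w` iff `l ≤ log λ` (a telescoping comparison with `log (1 + x)`).  Take
`λ > 1` with `λ, log λ` algebraically independent and `l = log λ`.  A certificate of the form
above involves finitely many real constants; a countable subfield of `ℝ` containing them has an
embedding into `ℝ` that fixes `λ` and sends `log λ` to a larger number, and it would turn the
certificate into one for a polynomial `p_{λ,l'}` with `l' > log λ`, which is not trace-positive.
-/

namespace Pool.Agent.Results.MP_0219da_al.NoTracialArtin

open Pool.Agent.Lib.MP_0219da_al

theorem result : ∀ g : ℕ, 2 ≤ g → ∃ p : FreeAlgebra ℝ (Fin g),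
    TracePositive p ∧ ¬ IsSumOfSquaresPlusCommutators p := by
  intro g hg
  obtain ⟨lam, hlam, halg⟩ := exists_lam
  exact ⟨pPoly g hg lam (Real.log lam), tracePositive_pPoly hg hlam,
    fun h => not_isRationalSOS hg hlam halg h.symm⟩

end Pool.Agent.Results.MP_0219da_al.NoTracialArtin
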